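import Pool.Agent.Helper83_TruthDef.EAzero

set_option autoImplicit false

namespace Pool.Agent.Results.MP_106fe3_lc.FiniteIntervals

open Pool.Agent.Helper83_TruthDef FirstOrder FirstOrder.Language

/-- Whenever `α` and `β` are definitions of truth over `T`, `β` defines `α`, and the interval
`[α, β]` of the definability order contains only finitely many theories up to equivalence, then
`α` defines `β`. -/
def FiniteIntervalProperty {L : FirstOrder.Language.{0, 0}} (A : ArSym L) (T : L.Theory) : Prop :=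
  ∀ (gn : L.Sentence → ℕ) (α β : FinThy L), IsTruthDef A T gn α → IsTruthDef A T gn β →
    Defines β α →
    (∃ F : Set (FinThy L), F.Finite ∧ ∀ γ, IsTruthDef A T gn γ → Defines γ α → Defines β γ →
      ∃ δ ∈ F, Defines γ δ ∧ Defines δ γ) →
    Defines α β

/-- The answer to Q1 is positive, for `EA = IΔ₀(exp)` in the language `0, S, +, ·, 2^x, ≤` as well
as for its `2^x`-free part in the language `0, S, +, ·, ≤`. -/
theorem result : FiniteIntervalProperty symLA EA ∧ FiniteIntervalProperty symLA0 EA0 := by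
  have hf : Finite (Σ n, LA.Functions n) := by
    refine Finite.of_surjective (fun i : Fin 5 => match i with
      | 0 => (⟨0, ArFun.zero⟩ : Σ n, LA.Functions n)
      | 1 => ⟨1, ArFun.succ⟩
      | 2 => ⟨2, ArFun.add⟩
      | 3 => ⟨2, ArFun.mul⟩
      | 4 => ⟨1, ArFun.exp⟩) ?_
    rintro ⟨n, f⟩
    cases f
    · exact ⟨0, rfl⟩
    · exact ⟨1, rfl⟩
    · exact ⟨2, rfl⟩
    · exact ⟨3, rfl⟩
    · exact ⟨4, rfl⟩
  have hf0 : Finite (Σ n, LA0.Functions n) := by
    refine Finite.of_surjective (fun i : Fin 4 => match i with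
      | 0 => (⟨0, ArFun0.zero⟩ : Σ n, LA0.Functions n)
      | 1 => ⟨1, ArFun0.succ⟩
      | 2 => ⟨2, ArFun0.add⟩
      | 3 => ⟨2, ArFun0.mul⟩) ?_
    rintro ⟨n, f⟩
    cases f
    · exact ⟨0, rfl⟩
    · exact ⟨1, rfl⟩
    · exact ⟨2, rfl⟩
    · exact ⟨3, rfl⟩
  have hr : Countable (Σ n, LA.Relations n) := by
    refine (Finite.of_surjective (fun _ : Unit => (⟨2, ArRel.le⟩ : Σ n, LA.Relations n))
      ?_).to_countable
    rintro ⟨n, r⟩
    cases r
    exact ⟨(), rfl⟩
  have hr0 : Countable (Σ n, LA0.Relations n) := hr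
  exact ⟨fun _ _ _ hα hβ h hfin => finite_interval arith_EA hα hβ h hfin,
    fun _ _ _ hα hβ h hfin => finite_interval arith_EA0 hα hβ h hfin⟩

end Pool.Agent.Results.MP_106fe3_lc.FiniteIntervals
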